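import Pool.Agent.Mg.F92463a.Gb16dc3

open scoped Manifold ContDiff
open Pool.Agent.MP_92463a_gt

namespace Pool.Agent.Results.MP_92463a_gt.AllEnds

/-- For `4 ≤ r ≤ g + 2` a closed orientable surface of genus `g` with `r` points removed has a
proper minimal embedding in `ℝ³`. -/
theorem result (g r : ℕ) (hr : 4 ≤ r) (hg : r ≤ g + 2) :
    ∃ (N : Type) (_ : TopologicalSpace N) (_ : ChartedSpace ℂ N),
      T2Space N ∧ CompactSpace N ∧ ConnectedSpace N ∧ IsManifold 𝓘(ℂ) ω N ∧ genus N = g ∧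
      ∃ (S : Finset N) (f : N → E3), S.card = r ∧ (∀ p ∉ S, IsMinimalAt f p) ∧
        Topology.IsEmbedding (fun p : {p // p ∉ S} => f p) ∧
        IsProperMap (fun p : {p // p ∉ S} => f p) :=
  realized_four hr hg

end Pool.Agent.Results.MP_92463a_gt.AllEnds
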